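import Pool.Agent.J4H32.MV.S2

/-!
# Project MV (MP_68a45e_nt): correlations and moments of the model from the local means
-/

set_option autoImplicit false

namespace Pool.Agent.J4H57.MV

open Finset
open Pool.Agent.J4H32.MV
open Pool.Agent.J4H81.PT (GG TV hq QQ TV_nonneg)

theorem prod_le_exp (P : Finset ℕ) (x : ℕ → ℝ) (hx : ∀ p, 0 ≤ x p) :
    ∏ p ∈ P, (1 + x p) ≤ Real.exp (∑ p ∈ P, x p) := by
  rw [Real.exp_sum]
  refine Finset.prod_le_prod (fun p _ => by linarith [hx p]) fun p _ => ?_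
  linarith [Real.add_one_le_exp (x p)]

open Classical in
theorem sum_ml {J W p : ℕ} {C : Fin J → ℕ} {b : ℝ} (hb : 0 ≤ b)
    (h1 : ∀ S : Finset (Fin J), S.card = 1 → ml W p C S = 0)
    (h2 : ∀ S : Finset (Fin J), 2 ≤ S.card → |ml W p C S| ≤ b) :
    ∑ S ∈ (univ : Finset (Finset (Fin J))).filter (fun S => S.Nonempty), |ml W p C S| ≤ 2 ^ J * b := by
  have h3 : ∀ S ∈ (univ : Finset (Finset (Fin J))).filter (fun S => S.Nonempty),
      |ml W p C S| ≤ b := by
    intro S hS
    rw [mem_filter] at hS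
    have h4 : 1 ≤ S.card := Finset.card_pos.mpr hS.2
    rcases Nat.lt_or_ge 1 S.card with h5 | h5
    · exact h2 S h5
    · rw [h1 S (by omega), abs_zero]
      exact hb
  calc ∑ S ∈ (univ : Finset (Finset (Fin J))).filter (fun S => S.Nonempty), |ml W p C S|
      ≤ ∑ S ∈ (univ : Finset (Finset (Fin J))).filter (fun S => S.Nonempty), b := sum_le_sum h3
    _ = (((univ : Finset (Finset (Fin J))).filter (fun S => S.Nonempty)).card : ℝ) * b := by
        rw [sum_const, nsmul_eq_mul]
    _ ≤ 2 ^ J * b := by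
        refine mul_le_mul_of_nonneg_right ?_ hb
        have h4 : ((univ : Finset (Finset (Fin J))).filter (fun S => S.Nonempty)).card ≤ 2 ^ J := by
          refine (card_filter_le _ _).trans ?_
          rw [card_univ, Fintype.card_finset, Fintype.card_fin]
        exact_mod_cast h4

/-- `∑_{w < p ≤ Q} 1 / (p - 1) ^ 2 ≤ 2 / w` -/
theorem sum_sq {w Q : ℕ} (hw : 1 ≤ w) :
    ∑ p ∈ Ioc w Q, 1 / ((p : ℝ) - 1) ^ 2 ≤ 2 / (w : ℝ) := by
  have hw0 : (0 : ℝ) < w := by exact_mod_cast hw
  have key : ∀ Q : ℕ, w + 1 ≤ Q →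
      ∑ p ∈ Ioc w Q, 1 / ((p : ℝ) - 1) ^ 2 ≤ 1 / (w : ℝ) ^ 2 + 1 / w - 1 / ((Q : ℝ) - 1) := by
    intro Q hQ
    induction Q, hQ using Nat.le_induction with
    | base =>
      rw [Nat.Ioc_succ_singleton, sum_singleton]
      push_cast
      have : (w : ℝ) + 1 - 1 = w := by ring
      rw [this]
      linarith
    | succ n hn ih =>
      rw [← Finset.insert_Ioc_right_eq_Ioc_add_one (by omega), sum_insert (by simp)]
      push_cast
      have hn1 : (1 : ℝ) < n := by
        have : 1 < n := by omega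
        exact_mod_cast this
      have h1 : (n : ℝ) + 1 - 1 = n := by ring
      rw [h1]
      have h2 : 1 / (n : ℝ) ^ 2 ≤ 1 / ((n : ℝ) - 1) - 1 / n := by
        have h3 : 1 / ((n : ℝ) - 1) - 1 / n = 1 / (((n : ℝ) - 1) * n) := by
          have : (n : ℝ) - 1 ≠ 0 := by linarith
          field_simp
          ring
        rw [h3]
        apply one_div_le_one_div_of_le
        · nlinarith
        · nlinarith
      linarith
  rcases Nat.lt_or_ge Q (w + 1) with h | h
  · rw [Finset.Ioc_eq_empty (by omega), sum_empty]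
    positivity
  · have h1 := key Q h
    have hQ1 : (1 : ℝ) < Q := by
      have : 1 < Q := by omega
      exact_mod_cast this
    have h2 : 0 < 1 / ((Q : ℝ) - 1) := by
      apply one_div_pos.mpr
      linarith
    have h3 : 1 / (w : ℝ) ^ 2 ≤ 1 / w := by
      apply one_div_le_one_div_of_le hw0
      have : (1 : ℝ) ≤ w := by exact_mod_cast hw
      nlinarith
    have h4 : (2 : ℝ) / w = 1 / w + 1 / w := by ring
    rw [h4]
    linarith

open Classical in
theorem t_MD (hMC : S_MC) (hLM : S_LM) : S_MD := by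
  intro W Q J T w C V hQ hw hW hVT hV hC
  set A : ℝ := 2 ^ J * ((J : ℝ) + 2) with hA
  have hA0 : 0 ≤ A := by positivity
  set y : ℕ → ℝ := fun p => ∑ i : Fin J, ∑ j : Fin J,
    (if i ≠ j ∧ (p : ℤ) ∣ (C i : ℤ) - C j then 1 / (p : ℝ) else 0) with hy
  have hy0 : ∀ p, 0 ≤ y p := fun p => sum_nonneg fun i _ => sum_nonneg fun j _ => by
    split_ifs
    · positivity
    · exact le_rfl
  set x : ℕ → ℝ := fun p => A * (1 / ((p : ℝ) - 1) ^ 2 + y p) with hx
  have hx0 : ∀ p, 0 ≤ x p := fun p => mul_nonneg hA0 (add_nonneg (by positivity) (hy0 p))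
  have h1 := hMC W Q J T C V x hQ hVT hV hx0 (by
    intro p hp hpQ hpW
    by_cases h2 : ∀ i j : Fin J, i ≠ j → ¬ (p : ℤ) ∣ (C i : ℤ) - C j
    · refine (sum_ml (b := ((J : ℝ) + 2) / ((p : ℝ) - 1) ^ 2) (by positivity)
        (fun S => (hLM J W p C S hp hpW).1)
        (fun S hS => (hLM J W p C S hp hpW).2.2 hS fun i _ j _ => h2 i j)).trans ?_
      rw [hx]
      have : A * (1 / ((p : ℝ) - 1) ^ 2) ≤ A * (1 / ((p : ℝ) - 1) ^ 2 + y p) :=
        mul_le_mul_of_nonneg_left (by linarith [hy0 p]) hA0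
      refine le_trans (le_of_eq ?_) this
      rw [hA]
      ring
    · push Not at h2
      obtain ⟨i, j, hij, hd⟩ := h2
      refine (sum_ml (b := ((J : ℝ) + 2) / p) (by positivity)
        (fun S => (hLM J W p C S hp hpW).1)
        (fun S hS => (hLM J W p C S hp hpW).2.1 hS)).trans ?_
      have h3 : 1 / (p : ℝ) ≤ y p := by
        have h4 : (if i ≠ j ∧ (p : ℤ) ∣ (C i : ℤ) - C j then 1 / (p : ℝ) else 0) ≤ y p := by
          refine le_trans ?_ (single_le_sum (f := fun i : Fin J => ∑ j : Fin J,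
            (if i ≠ j ∧ (p : ℤ) ∣ (C i : ℤ) - C j then 1 / (p : ℝ) else 0)) (fun i _ =>
              sum_nonneg fun j _ => by
                split_ifs
                · positivity
                · exact le_rfl) (mem_univ i))
          exact single_le_sum (f := fun j : Fin J =>
            (if i ≠ j ∧ (p : ℤ) ∣ (C i : ℤ) - C j then 1 / (p : ℝ) else 0)) (fun j _ => by
                split_ifs
                · positivity
                · exact le_rfl) (mem_univ j)
        rwa [if_pos ⟨hij, hd⟩] at h4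
      rw [hx]
      have h5 : A * (1 / (p : ℝ)) ≤ A * (1 / ((p : ℝ) - 1) ^ 2 + y p) := by
        refine mul_le_mul_of_nonneg_left ?_ hA0
        have : 0 ≤ 1 / ((p : ℝ) - 1) ^ 2 := by positivity
        linarith
      refine le_trans (le_of_eq ?_) h5
      rw [hA]
      ring)
  have hVs : 0 ≤ ∑ s ∈ range T, V s := sum_nonneg fun s _ => hV s
  refine h1.trans (add_le_add ?_ le_rfl)
  refine mul_le_mul_of_nonneg_right ?_ hVs
  refine sub_le_sub_right ?_ 1
  refine (prod_le_exp _ x hx0).trans (Real.exp_le_exp.mpr ?_)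
  rw [hx, ← mul_sum]
  refine mul_le_mul_of_nonneg_left ?_ hA0
  rw [sum_add_distrib]
  set P := (range (Q + 1)).filter (fun p => p.Prime ∧ ¬ p ∣ W) with hP
  have hPw : ∀ p ∈ P, w < p := by
    intro p hp
    rw [hP, mem_filter] at hp
    by_contra h
    exact hp.2.2 (hW p hp.2.1 (by omega))
  refine add_le_add ?_ ?_
  · refine le_trans (sum_le_sum_of_subset_of_nonneg (t := Ioc w Q) ?_ ?_) (sum_sq (by omega))
    · intro p hp
      have h2 := hPw p hp
      rw [hP, mem_filter, mem_range] at hp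
      rw [mem_Ioc]
      omega
    · intro p _ _
      positivity
  · rw [hy, sum_comm]
    refine sum_le_sum fun i _ => ?_
    rw [sum_comm]
    refine sum_le_sum fun j _ => ?_
    by_cases hij : i = j
    · subst hij
      rw [sum_eq_zero]
      · unfold Sg
        exact sum_nonneg fun p _ => by positivity
      · intro p _
        rw [if_neg]
        exact fun h => h.1 rfl
    · have hne : (C i : ℤ) - C j ≠ 0 := by
        intro h
        apply hij
        apply hC
        omega
      unfold Sg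
      rw [← sum_filter]
      refine sum_le_sum_of_subset_of_nonneg ?_ fun p _ _ => by positivity
      intro p hp
      rw [mem_filter] at hp
      have hpw := hPw p hp.1
      have hp1 := hp.1
      rw [hP, mem_filter] at hp1
      rw [mem_filter, Nat.mem_primeFactors]
      refine ⟨⟨hp1.2.1, ?_, by rwa [Ne, Int.natAbs_eq_zero]⟩, hpw⟩
      exact Int.natCast_dvd.mp hp.2.2

open Classical in
theorem t_MM (hMC : S_MC) (hLM : S_LM) : S_MM := by
  intro W Q J T C V hQ hVT hV
  set A : ℝ := 2 ^ J * ((J : ℝ) + 2) with hA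
  have hA0 : 0 ≤ A := by positivity
  set x : ℕ → ℝ := fun p => A * (1 / (p : ℝ)) with hx
  have hx0 : ∀ p, 0 ≤ x p := fun p => mul_nonneg hA0 (by positivity)
  have h1 := hMC W Q J T C V x hQ hVT hV hx0 (by
    intro p hp hpQ hpW
    refine (sum_ml (b := ((J : ℝ) + 2) / p) (by positivity)
      (fun S => (hLM J W p C S hp hpW).1)
      (fun S hS => (hLM J W p C S hp hpW).2.1 hS)).trans (le_of_eq ?_)
    rw [hx, hA]
    ring)
  have hVs : 0 ≤ ∑ s ∈ range T, V s := sum_nonneg fun s _ => hV s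
  set P := (range (Q + 1)).filter (fun p => p.Prime ∧ ¬ p ∣ W) with hP
  have h2 : ∏ p ∈ P, (1 + x p) ≤
      Real.exp (A * ∑ p ∈ (range (Q + 1)).filter Nat.Prime, 1 / (p : ℝ)) := by
    refine (prod_le_exp _ x hx0).trans (Real.exp_le_exp.mpr ?_)
    rw [hx, ← mul_sum]
    refine mul_le_mul_of_nonneg_left ?_ hA0
    refine sum_le_sum_of_subset_of_nonneg ?_ fun p _ _ => by positivity
    intro p hp
    rw [hP, mem_filter] at hp
    rw [mem_filter]
    exact ⟨hp.1, hp.2.1⟩
  have h3 := mul_le_mul_of_nonneg_right h2 hVs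
  have h4 := abs_sub_abs_le_abs_sub
    (∑ s ∈ range T, V s * ∏ j, GG W Q ((C j + W * s : ℕ) : ℤ)) (∑ s ∈ range T, V s)
  rw [abs_of_nonneg hVs] at h4
  linarith

end Pool.Agent.J4H57.MV
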