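import Pool.Agent.J4H32.MV.S5

/-!
# Project MV (MP_68a45e_nt): second moments of products of the model
-/

set_option autoImplicit false

namespace Pool.Agent.J4H57.MV

open Finset
open Pool.Agent.J4H32.MV
open Pool.Agent.J4H81.PT (GG TV)

theorem TV_ind {T : ℕ} (hT : 1 ≤ T) : TV (fun s => if s < T then (1 : ℝ) else 0) T ≤ 2 := by
  obtain ⟨t, rfl⟩ : ∃ t, T = t + 1 := ⟨T - 1, by omega⟩
  unfold TV
  rw [sum_range_succ]
  have h1 : ∑ s ∈ range t, |(if s + 1 < t + 1 then (1 : ℝ) else 0) - (if s < t + 1 then (1 : ℝ) else 0)| = 0 := by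
    refine sum_eq_zero fun s hs => ?_
    rw [mem_range] at hs
    rw [if_pos (by omega), if_pos (by omega), sub_self, abs_zero]
  rw [h1]
  simp only [Nat.zero_lt_succ, if_true, lt_irrefl, if_false, Nat.lt_succ_self, abs_one, zero_sub, abs_neg, zero_add]
  norm_num

theorem t_MB : S_MM → S_MB := by
  intro h K W Q T C S hQ hT
  obtain ⟨n, hn⟩ : ∃ n, n = S.card := ⟨_, rfl⟩
  have hnK : n ≤ K := by
    rw [hn]
    exact (card_le_univ S).trans (by rw [Fintype.card_fin])
  let e : Fin n ≃ S := (finCongr hn).trans S.equivFin.symm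
  let c : Fin n → ℕ := fun i => C (e i)
  have h1 := h W Q (n + n) T (Fin.append c c) (fun s => if s < T then (1 : ℝ) else 0) hQ
    (by simp) (fun s => by split_ifs <;> norm_num)
  have h2 : ∀ s, ∏ j : Fin (n + n), GG W Q ((Fin.append c c j + W * s : ℕ) : ℤ) = ∏ j ∈ S, GG W Q ((C j + W * s : ℕ) : ℤ) ^ 2 := by
    intro s
    rw [Fin.prod_univ_add]
    simp only [Fin.append_left, Fin.append_right]
    rw [← prod_mul_distrib, ← prod_coe_sort S, ← e.prod_comp]
    refine prod_congr rfl fun i _ => ?_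
    rw [sq]
  have h3 : ∑ s ∈ range T, (fun s => if s < T then (1 : ℝ) else 0) s * ∏ j : Fin (n + n), GG W Q ((Fin.append c c j + W * s : ℕ) : ℤ) =
      ∑ s ∈ range T, ∏ j ∈ S, GG W Q ((C j + W * s : ℕ) : ℤ) ^ 2 := by
    refine sum_congr rfl fun s hs => ?_
    rw [h2, mem_range] at *
    simp only [if_pos hs, one_mul]
  have h4 : ∑ s ∈ range T, (fun s => if s < T then (1 : ℝ) else 0) s = T := by
    rw [sum_congr rfl (g := fun _ => (1 : ℝ)) fun s hs => by
      rw [mem_range] at hs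
      simp only [if_pos hs]]
    simp
  rw [h3, h4] at h1
  have h5 := TV_ind hT
  have hP : 0 ≤ ∑ p ∈ (range (Q + 1)).filter Nat.Prime, 1 / (p : ℝ) := sum_nonneg fun _ _ => by positivity
  have h6 : (2 : ℝ) ^ (n + n) * (((n + n : ℕ) : ℝ) + 2) ≤ 4 ^ K * (2 * (K : ℝ) + 2) := by
    have a1 : (2 : ℝ) ^ (n + n) = 4 ^ n := by
      rw [← two_mul, pow_mul]
      norm_num
    rw [a1]
    have a2 : (n : ℝ) ≤ K := by exact_mod_cast hnK
    refine mul_le_mul (pow_le_pow_right₀ (by norm_num) hnK) ?_ (by positivity) (by positivity)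
    push_cast
    linarith
  have hQ1 : (1 : ℝ) ≤ Q := by exact_mod_cast hQ
  have h7 : (Q : ℝ) ^ (2 * (n + n)) ≤ (Q : ℝ) ^ (4 * K) := pow_le_pow_right₀ hQ1 (by omega)
  refine (le_abs_self _).trans (h1.trans ?_)
  refine add_le_add (mul_le_mul_of_nonneg_right (Real.exp_le_exp.mpr (mul_le_mul_of_nonneg_right h6 hP)) (by positivity)) ?_
  calc 2 * (Q : ℝ) ^ (2 * (n + n)) * TV (fun s => if s < T then (1 : ℝ) else 0) T
      ≤ 2 * (Q : ℝ) ^ (4 * K) * 2 := by
        refine mul_le_mul (by linarith) h5 ?_ (by positivity)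
        unfold TV
        positivity
    _ = 4 * (Q : ℝ) ^ (4 * K) := by ring

end Pool.Agent.J4H57.MV
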