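import Pool.Agent.J4H57.HL.Tail
import Pool.Agent.J4H32.MV.S6

/-!
Project MV part 2 of helper32 (MP_68a45e_nt): (TL), the primes beyond `w` contribute little to the singular series.
-/

set_option autoImplicit false

namespace Pool.Agent.J4H57.MV

open Finset
open Pool.Agent.J4H81.HL (nu loc)
open Pool.Agent.J4H57.HL
open Pool.Agent.J4H32.MV

theorem fac_eq {K : ℕ} (a : Fin K → ℕ) (ha : Function.Injective a) (p : ℕ) :
    fac a p = loc ((univ : Finset (Fin K)).image a) p := by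
  unfold fac loc nuP nu
  rw [card_image_of_injective _ ha, card_univ, Fintype.card_fin, image_image]
  rfl

/-- the sum over the pairs in the same class -/
theorem sum_prs {P : Finset ℕ} {w : ℕ} {A : Finset ℕ} {ε : ℝ} (hP : ∀ p ∈ P, p.Prime) (hPw : ∀ p ∈ P, w < p)
    (hε : 0 ≤ ε) (hA : ∀ x ∈ A, ∀ y ∈ A, Sg w ((y : ℤ) - x) ≤ ε) :
    ∑ p ∈ P, ((prs A p).card : ℝ) / p ≤ (A.card : ℝ) ^ 2 * ε := by
  have h1 : ∀ p ∈ P, ((prs A p).card : ℝ) / p =
      ∑ x ∈ (A ×ˢ A).filter (fun x => x.1 < x.2), (if p ∣ x.2 - x.1 then (1 : ℝ) / p else 0) := by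
    intro p hp
    have h2 : (prs A p) = ((A ×ˢ A).filter (fun x => x.1 < x.2)).filter (fun x => p ∣ x.2 - x.1) := by
      ext x
      simp only [prs, mem_filter, mem_product]
      constructor
      · rintro ⟨h, h1, h2⟩
        exact ⟨⟨h, h1⟩, (Nat.modEq_iff_dvd' h1.le).1 h2⟩
      · rintro ⟨⟨h, h1⟩, h2⟩
        exact ⟨h, h1, (Nat.modEq_iff_dvd' h1.le).2 h2⟩
    rw [h2, ← Finset.sum_filter, Finset.sum_const, nsmul_eq_mul, mul_one_div]
  calc ∑ p ∈ P, ((prs A p).card : ℝ) / p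
      = ∑ p ∈ P, ∑ x ∈ (A ×ˢ A).filter (fun x => x.1 < x.2), (if p ∣ x.2 - x.1 then (1 : ℝ) / p else 0) :=
        Finset.sum_congr rfl h1
    _ = ∑ x ∈ (A ×ˢ A).filter (fun x => x.1 < x.2), ∑ p ∈ P, (if p ∣ x.2 - x.1 then (1 : ℝ) / p else 0) :=
        Finset.sum_comm
    _ ≤ ∑ x ∈ (A ×ˢ A).filter (fun x => x.1 < x.2), ε := by
        apply Finset.sum_le_sum
        intro x hx
        obtain ⟨hx1, hx2⟩ := mem_filter.1 hx
        obtain ⟨hx3, hx4⟩ := mem_product.1 hx1
        rw [← Finset.sum_filter]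
        refine le_trans ?_ (hA x.1 hx3 x.2 hx4)
        unfold Sg
        refine Finset.sum_le_sum_of_subset_of_nonneg ?_ (fun _ _ _ => by positivity)
        intro p hp
        obtain ⟨hp1, hp2⟩ := mem_filter.1 hp
        rw [mem_filter]
        refine ⟨?_, hPw p hp1⟩
        have e : ((x.2 : ℤ) - x.1).natAbs = x.2 - x.1 := by
          rw [← Nat.cast_sub hx2.le, Int.natAbs_natCast]
        rw [e, Nat.mem_primeFactors]
        exact ⟨hP p hp1, hp2, by omega⟩
    _ = (((A ×ˢ A).filter (fun x => x.1 < x.2)).card : ℝ) * ε := by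
        rw [Finset.sum_const, nsmul_eq_mul]
    _ ≤ (A.card : ℝ) ^ 2 * ε := by
        apply mul_le_mul_of_nonneg_right _ hε
        have h6 : ((A ×ˢ A).filter (fun x => x.1 < x.2)).card ≤ A.card * A.card := by
          rw [← card_product]; exact card_filter_le _ _
        rw [sq]; exact_mod_cast h6

/-- finite partial products beyond `w` -/
theorem prod_bounds2 {P : Finset ℕ} {w : ℕ} {A : Finset ℕ} {E : ℝ} (hP : ∀ p ∈ P, p.Prime) (hw : 1 ≤ w)
    (hPw : ∀ p ∈ P, w < p) (hAw : 2 * A.card ≤ w) (hE0 : 0 ≤ E) (hE : ∑ p ∈ P, ((prs A p).card : ℝ) / p ≤ E)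
    (hE1 : 2 * E ≤ 1) :
    |∏ p ∈ P, loc A p - 1| ≤ (A.card : ℝ) ^ 2 / w + 4 * E := by
  have hw0 : (0 : ℝ) < w := by exact_mod_cast (by omega : 0 < w)
  have hlow : 1 - (A.card : ℝ) ^ 2 / w ≤ ∏ p ∈ P, loc A p := by
    calc 1 - (A.card : ℝ) ^ 2 / w ≤ 1 - ∑ p ∈ P, (A.card : ℝ) ^ 2 / (p : ℝ) ^ 2 := by
          have h1 := sum_inv_sq_le (P := P) (z := w) hw hPw
          have h2 : ∑ p ∈ P, (A.card : ℝ) ^ 2 / (p : ℝ) ^ 2 = (A.card : ℝ) ^ 2 * ∑ p ∈ P, (1 : ℝ) / (p : ℝ) ^ 2 := by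
            rw [Finset.mul_sum]; apply Finset.sum_congr rfl; intro p _; ring
          rw [h2]
          have h3 := mul_le_mul_of_nonneg_left h1 (sq_nonneg (A.card : ℝ))
          have h4 : (A.card : ℝ) ^ 2 * (1 / w) = (A.card : ℝ) ^ 2 / w := by ring
          linarith
      _ ≤ ∏ p ∈ P, (1 - (A.card : ℝ) ^ 2 / (p : ℝ) ^ 2) := by
          apply prod_one_sub_ge
          intro p hp
          have hp1 : A.card ≤ p := by have := hPw p hp; omega
          have hp0 : (0 : ℝ) < p := by exact_mod_cast (by have := hPw p hp; omega : 0 < p)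
          refine ⟨by positivity, ?_⟩
          rw [div_le_one (by positivity)]
          exact pow_le_pow_left₀ (by positivity) (by exact_mod_cast hp1) _
      _ ≤ ∏ p ∈ P, loc A p := by
          apply Finset.prod_le_prod
          · intro p hp
            have hp1 : A.card ≤ p := by have := hPw p hp; omega
            have hp0 : (0 : ℝ) < p := by exact_mod_cast (by have := hPw p hp; omega : 0 < p)
            have : (A.card : ℝ) ^ 2 / (p : ℝ) ^ 2 ≤ 1 := by
              rw [div_le_one (by positivity)]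
              exact pow_le_pow_left₀ (by positivity) (by exact_mod_cast hp1) _
            linarith
          · intro p hp
            exact loc_lower A (hP p hp).two_le (by have := hPw p hp; omega)
  have hup : ∏ p ∈ P, loc A p ≤ Real.exp (2 * E) := by
    calc ∏ p ∈ P, loc A p ≤ ∏ p ∈ P, Real.exp (2 * (((prs A p).card : ℝ) / p)) := by
          apply Finset.prod_le_prod
          · intro p hp; exact loc_nonneg A (hP p hp).two_le
          · intro p hp
            refine (loc_upper A (hP p hp).two_le (by have := hPw p hp; omega)).trans ?_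
            have := Real.add_one_le_exp (2 * (((prs A p).card : ℝ) / p))
            calc _ = 2 * (((prs A p).card : ℝ) / p) + 1 := by ring
              _ ≤ _ := this
      _ = Real.exp (∑ p ∈ P, 2 * (((prs A p).card : ℝ) / p)) := (Real.exp_sum _ _).symm
      _ ≤ _ := by
          rw [← Finset.mul_sum]
          apply Real.exp_le_exp.2
          linarith
  have hl0 : 0 ≤ 2 * E := by positivity
  have he : Real.exp (2 * E) ≤ 1 + 2 * (2 * E) := by
    have h := Real.abs_exp_sub_one_sub_id_le (x := 2 * E) (by rw [abs_of_nonneg hl0]; exact hE1)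
    have h' := (abs_le.1 h).2
    nlinarith
  have hx0 : 0 ≤ (A.card : ℝ) ^ 2 / w := by positivity
  rw [abs_le]
  constructor
  · linarith
  · linarith

theorem t_TL : S_TL := by
  intro K
  refine ⟨8 * (K : ℝ) ^ 2 + 8, by nlinarith [sq_nonneg (K : ℝ)], ?_⟩
  intro w a ε hw hε ha hS hC
  classical
  obtain ⟨A, hA⟩ : ∃ A : Finset ℕ, A = (univ : Finset (Fin K)).image a := ⟨_, rfl⟩
  have hAK : A.card = K := by rw [hA, card_image_of_injective _ ha, card_univ, Fintype.card_fin]
  have hw0 : (0 : ℝ) < w := by exact_mod_cast (by omega : 0 < w)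
  have hfac : ∀ p, fac a p = loc A p := by
    intro p
    rw [hA]
    exact fac_eq a ha p
  have hAS : ∀ x ∈ A, ∀ y ∈ A, Sg w ((y : ℤ) - x) ≤ ε := by
    intro x hx y hy
    rw [hA] at hx hy
    obtain ⟨i, -, rfl⟩ := mem_image.1 hx
    obtain ⟨j, -, rfl⟩ := mem_image.1 hy
    exact hS j i
  have hC1 : (8 * (K : ℝ) ^ 2 + 8) * (1 / w) ≤ 1 := by
    have : 0 ≤ (8 * (K : ℝ) ^ 2 + 8) * ε := by positivity
    rw [mul_add] at hC
    linarith
  have hC2 : (8 * (K : ℝ) ^ 2 + 8) * ε ≤ 1 := by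
    have : 0 ≤ (8 * (K : ℝ) ^ 2 + 8) * (1 / w) := by positivity
    rw [mul_add] at hC
    linarith
  have hwK : 8 * (K : ℝ) ^ 2 + 8 ≤ w := by
    rw [mul_one_div, div_le_one hw0] at hC1
    exact hC1
  have hwK2 : 2 * A.card ≤ w := by
    rw [hAK]
    have : (2 * (K : ℝ)) ≤ w := by nlinarith [sq_nonneg ((K : ℝ) - 1)]
    exact_mod_cast this
  have hmul : Multipliable (fun p : Nat.Primes => loc A p) := multipliable_loc A
  have hSW : SW w a = ∏ p ∈ (range (w + 1)).filter Nat.Prime, loc A p := prod_congr rfl fun p _ => hfac p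
  have hSS : SS a = ∏' p : Nat.Primes, loc A p := by
    unfold SS
    exact tprod_congr fun p => hfac p
  have hsZ0 : 0 ≤ SW w a := by
    rw [hSW]
    exact Finset.prod_nonneg (fun p hp => loc_nonneg A (mem_filter.1 hp).2.two_le)
  -- the primes up to `w`
  let S0 : Finset Nat.Primes := ((range (w + 1)).filter Nat.Prime).preimage (fun p : Nat.Primes => (p : ℕ))
    Nat.Primes.coe_nat_injective.injOn
  have key : ∀ s : Finset Nat.Primes, S0 ⊆ s →
      |∏ p ∈ s, loc A p - SW w a| ≤ (8 * (K : ℝ) ^ 2 + 8) * (1 / w + ε) * SW w a := by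
    intro s hs
    have h1 : ∏ p ∈ s, loc A p = (∏ p ∈ s \ S0, loc A p) * ∏ p ∈ S0, loc A p :=
      (Finset.prod_sdiff hs).symm
    have h2 : ∏ p ∈ S0, loc A p = SW w a := by
      rw [hSW]
      apply Finset.prod_preimage (fun p : Nat.Primes => (p : ℕ)) _ _ (fun p => loc A p)
      intro p hp hp2
      exact absurd ⟨⟨p, (mem_filter.1 hp).2⟩, rfl⟩ hp2
    have h3 : ∏ p ∈ s \ S0, loc A p = ∏ p ∈ (s \ S0).map ⟨fun p : Nat.Primes => (p : ℕ), Nat.Primes.coe_nat_injective⟩, loc A p := by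
      rw [Finset.prod_map]; rfl
    have hP1 : ∀ p ∈ (s \ S0).map ⟨fun p : Nat.Primes => (p : ℕ), Nat.Primes.coe_nat_injective⟩, p.Prime := by
      intro p hp
      obtain ⟨q, _, rfl⟩ := mem_map.1 hp
      exact q.2
    have hP2 : ∀ p ∈ (s \ S0).map ⟨fun p : Nat.Primes => (p : ℕ), Nat.Primes.coe_nat_injective⟩, w < p := by
      intro p hp
      obtain ⟨q, hq, rfl⟩ := mem_map.1 hp
      have h5 := (mem_sdiff.1 hq).2
      by_contra hcon
      apply h5
      have hcon' : (q : ℕ) ≤ w := not_lt.mp hcon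
      exact Finset.mem_preimage.mpr (mem_filter.mpr ⟨mem_range.mpr (by omega), q.2⟩)
    have h4 : |∏ p ∈ s \ S0, loc A p - 1| ≤ (8 * (K : ℝ) ^ 2 + 8) * (1 / w + ε) := by
      rw [h3]
      have hE := sum_prs hP1 hP2 hε hAS
      rw [hAK] at hE
      refine (prod_bounds2 hP1 hw hP2 hwK2 (by positivity) hE (by nlinarith)).trans ?_
      rw [hAK]
      have e1 : (K : ℝ) ^ 2 / w = (K : ℝ) ^ 2 * (1 / w) := by ring
      rw [e1]
      have h5 : 0 ≤ 1 / (w : ℝ) := by positivity
      have h6 : 0 ≤ (K : ℝ) ^ 2 * (1 / w) := by positivity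
      have h7 : 0 ≤ (K : ℝ) ^ 2 * ε := by positivity
      nlinarith
    rw [h1, h2]
    have h6 : (∏ p ∈ s \ S0, loc A p) * SW w a - SW w a = (∏ p ∈ s \ S0, loc A p - 1) * SW w a := by ring
    rw [h6, abs_mul, abs_of_nonneg hsZ0]
    exact mul_le_mul_of_nonneg_right h4 hsZ0
  have htend : Filter.Tendsto (fun s : Finset Nat.Primes => |∏ p ∈ s, loc A p - SW w a|) Filter.atTop
      (nhds |SS a - SW w a|) := by
    have h1 : Filter.Tendsto (fun s : Finset Nat.Primes => ∏ p ∈ s, loc A p) Filter.atTop (nhds (SS a)) := by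
      rw [hSS]
      exact hmul.hasProd
    exact (h1.sub_const _).abs
  exact le_of_tendsto htend (Filter.eventually_atTop.2 ⟨S0, key⟩)

end Pool.Agent.J4H57.MV
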